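import Pool.Agent.W593.ZT.Stm

/-! # ZT-B8: the base hub set for orders seven and eight -/

open scoped Classical

set_option autoImplicit false

namespace Pool.Agent.W378.ZT

open Pool.Agent.W593.ZT

theorem Cs_mono {V G : Type} (c : V → V → G) {A B : Finset V} (h : A ⊆ B) (z : V) :
    Cs c A z ⊆ Cs c B z :=
  Finset.image_subset_image h

/-- at least three edges of a new colour -/
theorem three {V G : Type} [Fintype V] (c : V → V → G)
    (h : ∀ x g g', g ≠ g' → 2 ≤ (Rs c x g g').card) (x : V) (e : G) (he : ∃ g', g' ≠ e) :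
    3 ≤ (Finset.univ.filter (fun w => w ≠ x ∧ c x w ≠ e)).card := by
  obtain ⟨g', hg'⟩ := he
  have h1 := h x e g' hg'.symm
  obtain ⟨w0, hw0⟩ : (Rs c x e g').Nonempty := Finset.card_pos.1 (by omega)
  simp only [Rs, Finset.mem_filter, Finset.mem_univ, true_and] at hw0
  have h2 := h x e (c x w0) (Ne.symm hw0.2.1)
  have h4 : w0 ∉ Rs c x e (c x w0) := by
    simp [Rs]
  have h3 : insert w0 (Rs c x e (c x w0)) ⊆
      Finset.univ.filter (fun w => w ≠ x ∧ c x w ≠ e) := by
    intro w hw
    rw [Finset.mem_filter]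
    refine ⟨Finset.mem_univ _, ?_⟩
    rcases Finset.mem_insert.1 hw with rfl | hw
    · exact ⟨hw0.1, hw0.2.1⟩
    · simp only [Rs, Finset.mem_filter, Finset.mem_univ, true_and] at hw
      exact ⟨hw.1, hw.2.1⟩
  have h5 := Finset.card_le_card h3
  rw [Finset.card_insert_of_notMem h4] at h5
  omega

theorem main (hG : S_GAIN) (hF : S_FFN) : S_B8 := by
  intro V G _ _ _ c hc h2 T hT hn1 hn3 hm
  by_contra hno
  push Not at hno
  obtain ⟨m, hm'⟩ : ∃ m, m = Fintype.card G := ⟨_, rfl⟩
  rw [← hm'] at hm
  simp only [← hm'] at hno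
  have hV : Fintype.card V = m + 1 := by rw [hm']; exact hc.card
  have hTne : T.Nonempty := Finset.card_pos.1 (by omega)
  have hFT := hF V G c T hTne
  rw [hn1, hn3, hT, hV] at hFT
  have hO : (Finset.univ \ T).card = m - 2 := by
    rw [Finset.card_univ_diff, hV, hT]; omega
  have hins : ∀ w ∈ Finset.univ \ T, (insert w T).card = 4 := by
    intro w hw
    rw [Finset.card_insert_of_notMem (Finset.mem_sdiff.1 hw).2, hT]
  have hle : ∀ w ∈ Finset.univ \ T, FF c (insert w T) ≤ m - 2 := by
    intro w hw
    have h3 := hins w hw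
    have h4 := hno (insert w T) (by omega) (by omega)
    omega
  -- few vertices with small gain
  set D : Finset V := (Finset.univ \ T).filter (fun w => FF c (insert w T) < m - 2) with hD
  have hDc : D.card ≤ m - 6 := by
    have hgain := hG V G c hc 2 h2 T hTne
    rw [hn1, hn3, hO] at hgain
    have h3 : ∑ w ∈ Finset.univ \ T, ((FF c (insert w T) : ℤ) - (FF c T : ℤ)) ≤
        ∑ w ∈ Finset.univ \ T, ((2 : ℤ) - if FF c (insert w T) < m - 2 then 1 else 0) := by
      refine Finset.sum_le_sum fun w hw => ?_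
      have h4 := hle w hw
      split_ifs with h5 <;> omega
    have h6 : ∑ w ∈ Finset.univ \ T, ((2 : ℤ) - if FF c (insert w T) < m - 2 then 1 else 0) =
        2 * ((m - 2 : ℕ) : ℤ) - (D.card : ℤ) := by
      rw [Finset.sum_sub_distrib, Finset.sum_const, hO, nsmul_eq_mul, Finset.card_filter]
      push_cast
      ring
    rw [h6] at h3
    push_cast at hgain
    omega
  -- the two vertices which see one colour
  set R1 : Finset V := (Finset.univ \ T).filter (fun z => (Cs c T z).card = 1) with hR1
  have hR1c : R1.card = 2 := hn1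
  obtain ⟨ρ1, ρ2, hρ, hR12⟩ := Finset.card_eq_two.1 hR1c
  set bad : V → Finset V := fun z =>
    (Finset.univ \ T).filter (fun w => w ≠ z ∧ c z w ∈ Cs c T z) with hbad
  have hbadc : ∀ z ∈ R1, (bad z).card ≤ m - 6 := by
    intro z hz
    obtain ⟨hzT, hz1⟩ := Finset.mem_filter.1 hz
    obtain ⟨e, he⟩ := Finset.card_eq_one.1 hz1
    have hex : ∃ g' : G, g' ≠ e := by
      have : 1 < Fintype.card G := by omega
      obtain ⟨a, b, hab⟩ := Fintype.one_lt_card_iff.1 this
      by_cases h : a = e
      · exact ⟨b, fun hb => hab (h.trans hb.symm)⟩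
      · exact ⟨a, h⟩
    have h3 := three c h2 z e hex
    have hdis : Disjoint (bad z) (Finset.univ.filter (fun w => w ≠ z ∧ c z w ≠ e)) := by
      rw [Finset.disjoint_left]
      intro w hw hw'
      have h4 := (Finset.mem_filter.1 hw).2.2
      have h5 := (Finset.mem_filter.1 hw').2.2
      rw [he, Finset.mem_singleton] at h4
      exact h5 h4
    have hsub : bad z ∪ (Finset.univ.filter (fun w => w ≠ z ∧ c z w ≠ e)) ⊆
        (Finset.univ \ T).erase z := by
      intro w hw
      rw [Finset.mem_erase, Finset.mem_sdiff]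
      rcases Finset.mem_union.1 hw with h | h
      · obtain ⟨h4, h5, -⟩ := Finset.mem_filter.1 h
        exact ⟨h5, Finset.mem_sdiff.1 h4⟩
      · obtain ⟨-, h5, h6⟩ := Finset.mem_filter.1 h
        refine ⟨h5, Finset.mem_univ _, fun hwT => h6 ?_⟩
        have h7 : c z w ∈ Cs c T z := Finset.mem_image_of_mem _ hwT
        rw [he, Finset.mem_singleton] at h7
        exact h7
    have h8 := Finset.card_le_card hsub
    rw [Finset.card_union_of_disjoint hdis, Finset.card_erase_of_mem hzT, hO] at h8
    omega
  have hkey : ∀ w, n1 c (insert w T) ≤ (R1.filter (fun z => w ∈ bad z)).card ∨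
      w ∈ T := by
    intro w
    by_cases hwT : w ∈ T
    · exact Or.inr hwT
    refine Or.inl (Finset.card_le_card ?_)
    intro z hz
    obtain ⟨hz1, hz2⟩ := Finset.mem_filter.1 hz
    have hz3 := (Finset.mem_sdiff.1 hz1).2
    rw [Finset.mem_insert, not_or] at hz3
    have hsub : Cs c T z ⊆ Cs c (insert w T) z := Cs_mono c (Finset.subset_insert _ _) z
    have hne : (Cs c T z).Nonempty := Finset.Nonempty.image hTne _
    have hc1 : (Cs c T z).card = 1 := by
      have h3 := Finset.card_le_card hsub
      have h4 := Finset.card_pos.2 hne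
      omega
    have heq : Cs c T z = Cs c (insert w T) z :=
      Finset.eq_of_subset_of_card_le hsub (by omega)
    have hzT : z ∈ Finset.univ \ T := Finset.mem_sdiff.2 ⟨Finset.mem_univ _, hz3.2⟩
    refine Finset.mem_filter.2 ⟨Finset.mem_filter.2 ⟨hzT, hc1⟩, ?_⟩
    refine Finset.mem_filter.2 ⟨Finset.mem_sdiff.2 ⟨Finset.mem_univ _, hwT⟩,
      Ne.symm hz3.1, ?_⟩
    rw [heq]
    exact Finset.mem_image_of_mem _ (Finset.mem_insert_self _ _)
  have hρ1 : ρ1 ∈ R1 := by rw [hR12]; simp
  have hρ2 : ρ2 ∈ R1 := by rw [hR12]; simp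
  have hb1 := hbadc ρ1 hρ1
  have hb2 := hbadc ρ2 hρ2
  -- choice of `w`
  obtain ⟨w, hwO, hwD, hwn⟩ : ∃ w ∈ Finset.univ \ T, w ∉ D ∧ n1 c (insert w T) ≤ m - 7 := by
    rcases hm with hm | hm
    · have h3 : (D ∪ bad ρ1).card < (Finset.univ \ T).card := by
        have := Finset.card_union_le D (bad ρ1)
        rw [hO]
        omega
      obtain ⟨w, hw, hw'⟩ := Finset.exists_mem_notMem_of_card_lt_card h3
      rw [Finset.mem_union, not_or] at hw'
      refine ⟨w, hw, hw'.1, ?_⟩
      rcases hkey w with h | h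
      · refine h.trans ?_
        have h4 : R1.filter (fun z => w ∈ bad z) ⊆ {ρ2} := by
          intro z hz
          obtain ⟨hz1, hz2⟩ := Finset.mem_filter.1 hz
          rw [hR12, Finset.mem_insert, Finset.mem_singleton] at hz1
          rcases hz1 with rfl | rfl
          · exact absurd hz2 hw'.2
          · exact Finset.mem_singleton_self _
        have h5 := Finset.card_le_card h4
        rw [Finset.card_singleton] at h5
        omega
      · exact absurd h (Finset.mem_sdiff.1 hw).2
    · have h3 : (D ∪ (bad ρ1 ∪ bad ρ2)).card < (Finset.univ \ T).card := by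
        have h4 := Finset.card_union_le D (bad ρ1 ∪ bad ρ2)
        have h5 := Finset.card_union_le (bad ρ1) (bad ρ2)
        rw [hO]
        omega
      obtain ⟨w, hw, hw'⟩ := Finset.exists_mem_notMem_of_card_lt_card h3
      rw [Finset.mem_union, not_or, Finset.mem_union, not_or] at hw'
      refine ⟨w, hw, hw'.1, ?_⟩
      rcases hkey w with h | h
      · refine h.trans ?_
        have h4 : R1.filter (fun z => w ∈ bad z) = ∅ := by
          rw [Finset.filter_eq_empty_iff]
          intro z hz1 hz2
          rw [hR12, Finset.mem_insert, Finset.mem_singleton] at hz1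
          rcases hz1 with rfl | rfl
          · exact hw'.2.1 hz2
          · exact hw'.2.2 hz2
        rw [h4]
        simp
      · exact absurd h (Finset.mem_sdiff.1 hw).2
  -- second step
  have hFw : FF c (insert w T) = m - 2 := by
    have h3 := hle w hwO
    have h4 : ¬ FF c (insert w T) < m - 2 := fun h => hwD (Finset.mem_filter.2 ⟨hwO, h⟩)
    omega
  have hBne : (insert w T).Nonempty := Finset.insert_nonempty _ _
  have hBc := hins w hwO
  have hFB := hF V G c (insert w T) hBne
  rw [hFw, hBc, hV] at hFB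
  have hgB := hG V G c hc 2 h2 (insert w T) hBne
  have hOB : (Finset.univ \ insert w T).card = m - 3 := by
    rw [Finset.card_univ_diff, hV, hBc]; omega
  have hs : ∑ w' ∈ Finset.univ \ insert w T,
      ((FF c (insert w' (insert w T)) : ℤ) - (FF c (insert w T) : ℤ)) ≤ 0 := by
    refine Finset.sum_nonpos fun w' hw' => ?_
    have h3 : (insert w' (insert w T)).card = 5 := by
      rw [Finset.card_insert_of_notMem (Finset.mem_sdiff.1 hw').2, hBc]
    have h4 := hno (insert w' (insert w T)) (by omega) (by omega)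
    rw [hFw]
    omega
  rw [hOB] at hgB
  push_cast at hgB
  omega

end Pool.Agent.W378.ZT
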